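import Pool.Agent.H24.RCN.Targets

/-!
# EPS: a real element whose quotient by its conjugate is a unit, but not the quotient of a unit
-/

set_option autoImplicit false

open NumberField Pool.Agent.H24.RCN

namespace Pool.Agent.H12.RCN

section

variable {L : Type} [Field L]

lemma tor_ne {x : L} (h : Tor x) : x ≠ 0 := by
  rintro rfl
  obtain ⟨n, hn, h⟩ := h
  rw [zero_pow hn.ne'] at h
  exact zero_ne_one h

lemma tor_mul {x y : L} (hx : Tor x) (hy : Tor y) : Tor (x * y) := by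
  obtain ⟨n, hn, h⟩ := hx
  obtain ⟨m, hm, h'⟩ := hy
  refine ⟨n * m, Nat.mul_pos hn hm, ?_⟩
  rw [mul_pow, pow_mul, h, one_pow, one_mul, mul_comm n m, pow_mul, h', one_pow]

lemma tor_zpow {x : L} (hx : Tor x) (k : ℤ) : Tor (x ^ k) := by
  obtain ⟨n, hn, h⟩ := hx
  refine ⟨n, hn, ?_⟩
  rw [← zpow_natCast, zpow_comm, zpow_natCast, h, one_zpow]

lemma un_mul {x y : L} (hx : Un x) (hy : Un y) : Un (x * y) :=
  ⟨mul_ne_zero hx.1 hy.1, hx.2.1.mul hy.2.1, by rw [mul_inv]; exact hx.2.2.mul hy.2.2⟩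

lemma un_inv {x : L} (hx : Un x) : Un x⁻¹ :=
  ⟨inv_ne_zero hx.1, hx.2.2, by rw [inv_inv]; exact hx.2.1⟩

lemma un_one : Un (1 : L) := ⟨one_ne_zero, isIntegral_one, by rw [inv_one]; exact isIntegral_one⟩

lemma un_pow {x : L} (hx : Un x) (n : ℕ) : Un (x ^ n) := by
  induction n with
  | zero => rw [pow_zero]; exact un_one
  | succ n ih => rw [pow_succ]; exact un_mul ih hx

lemma un_zpow {x : L} (hx : Un x) (k : ℤ) : Un (x ^ k) := by
  obtain ⟨n, rfl | rfl⟩ := k.eq_nat_or_neg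
  · rw [zpow_natCast]; exact un_pow hx n
  · rw [zpow_neg, zpow_natCast]; exact un_inv (un_pow hx n)

lemma un_map {x : L} (hx : Un x) (g : L →+* L) : Un (g x) :=
  ⟨(map_ne_zero g).2 hx.1, map_isIntegral_int g hx.2.1, by
    rw [← map_inv₀]; exact map_isIntegral_int g hx.2.2⟩

end

theorem pf_EPS (hnu : T_NU) (htoj : T_TOJ) (hkrn : T_KRN) (hnpr : T_NPR) (hkap : T_KAP) :
    T_EPS := by
  intro F L _ _ _ _ _ _ κ σ J hκ hκ2 hE
  have hgal : IsGalois F L := hE.gal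
  have hcyc : IsCyclic (L ≃ₐ[F] L) := ⟨σ, hE.gen⟩
  obtain ⟨u, hu, huN, hbad⟩ := hnu F L κ σ J hκ hE
  have hJJ : ∀ x, J (J x) = x := by
    intro x
    obtain ⟨τ⟩ : Nonempty (L →+* ℂ) := inferInstance
    apply τ.injective
    rw [hE.conj, hE.conj, Complex.conj_conj]
  have hJu : Un (J u) := un_map hu J.toRingHom
  have hu0 : u ≠ 0 := hu.1
  have hJu0 : J u ≠ 0 := hJu.1
  have hJσ : ∀ (i : ℕ) (x : L), (σ ^ i) (J x) = J ((σ ^ i) x) := by
    intro i
    induction i with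
    | zero => intro x; rfl
    | succ i ih =>
      intro x
      rw [pow_succ, AlgEquiv.mul_apply, AlgEquiv.mul_apply, ← hE.comm, ih]
  -- the norm of u * J u
  have hN : Algebra.norm F (u * J u) = 1 := by
    apply (algebraMap F L).injective
    obtain ⟨h1, -⟩ := hnpr F L κ σ J hκ hE
    have htor : Tor (algebraMap F L (Algebra.norm F u)) := by
      obtain ⟨n, hn, h⟩ := huN
      exact ⟨n, hn, by rw [← map_pow, h, map_one]⟩
    rw [map_mul, map_mul, h1 (J u), Finset.prod_congr rfl fun i _ => hJσ i u, ← map_prod,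
      ← h1 u, htoj F L κ σ J hE _ htor, map_one, mul_inv_cancel₀ (tor_ne htor)]
  obtain ⟨y, hy⟩ := groupCohomology.exists_div_of_norm_eq_one hE.gen hN
  have hy0 : (y : L) ≠ 0 := y.ne_zero
  have hJy0 : J (y : L) ≠ 0 := (map_ne_zero J).2 hy0
  have hσy0 : σ (y : L) ≠ 0 := (map_ne_zero σ).2 hy0
  have hJσy0 : J (σ (y : L)) ≠ 0 := (map_ne_zero J).2 hσy0
  -- the real element
  have halg : IsAlgebraic ℤ ((y : L) * J y) :=
    (IsFractionRing.isAlgebraic_iff ℤ ℚ L).2 (Algebra.IsAlgebraic.isAlgebraic ((y : L) * J y))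
  obtain ⟨k, hk0, hk⟩ := halg.exists_integral_multiple
  have hkL : ((k : ℤ) : L) ≠ 0 := Int.cast_ne_zero.2 hk0
  have hyeq : (y : L) / σ y = u * J u := hy
  have hσyeq : σ (y : L) / y = (u * J u)⁻¹ := by rw [← hyeq, inv_div]
  have hJe : J (u * J u) = u * J u := by rw [map_mul, hJJ, mul_comm]
  have hσJyeq : σ (J (y : L)) / J y = (u * J u)⁻¹ := by
    rw [← hE.comm, ← map_div₀, hσyeq, map_inv₀, hJe]
  have hue : Un (u * J u) := un_mul hu hJu
  have hquot : σ ((k : L) * ((y : L) * J y)) / ((k : L) * ((y : L) * J y)) =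
      (u * J u)⁻¹ * (u * J u)⁻¹ := by
    have hk' : σ ((k : ℤ) : L) = (k : L) := map_intCast σ k
    rw [map_mul, map_mul, hk', mul_div_mul_left _ _ hkL, mul_div_mul_comm, hσyeq, hσJyeq]
  refine ⟨(k : L) * ((y : L) * J y), mul_ne_zero hkL (mul_ne_zero hy0 hJy0), ?_, ?_, ?_, ?_⟩
  · rwa [zsmul_eq_mul] at hk
  · rw [map_mul, map_mul, hJJ, mul_comm (J (y : L))]
    congr 1
    exact map_intCast J k
  · rw [hquot]
    exact un_mul (un_inv hue) (un_inv hue)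
  · intro w hw heq
    rw [hquot] at heq
    have hw0 : w ≠ 0 := hw.1
    have hσw0 : σ w ≠ 0 := (map_ne_zero σ).2 hw0
    obtain ⟨z, t, hz, ht, hzt⟩ := hkap F L κ σ J hκ hE u hu huN
    have hz0 : z ≠ 0 := hz.1
    have hσz0 : σ z ≠ 0 := (map_ne_zero σ).2 hz0
    have hs : Tor (J u / u) := hkrn F L κ σ J hE u hu
    have hs0 : J u / u ≠ 0 := tor_ne hs
    -- u ^ 4 = s ^ (-2) * (σ w⁻¹ / w⁻¹)
    have hu4 : u ^ (4 : ℤ) = (J u / u) ^ (-2 : ℤ) * (σ w / w) ^ (-1 : ℤ) := by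
      rw [← heq]
      field_simp
    have hgcd : Int.gcd 4 (κ : ℤ) = 1 := by
      have : Nat.Coprime 4 κ := by
        have h2 : Nat.Coprime 2 κ := (Nat.coprime_primes Nat.prime_two hκ).2 (Ne.symm hκ2)
        have : Nat.Coprime (2 ^ 2) κ := h2.pow_left 2
        simpa using this
      simpa [Int.gcd] using this
    obtain ⟨x, x', hxx⟩ : ∃ x x' : ℤ, 4 * x + κ * x' = 1 := by
      refine ⟨Int.gcdA 4 κ, Int.gcdB 4 κ, ?_⟩
      have := Int.gcd_eq_gcd_ab 4 (κ : ℤ)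
      rw [hgcd] at this
      rw [← this]; rfl
    refine hbad (w ^ (-x) * z ^ x') ((J u / u) ^ (-2 * x) * t ^ x')
      (un_mul (un_zpow hw _) (un_zpow hz _)) (tor_mul (tor_zpow hs _) (tor_zpow ht _)) ?_
    have hzt' : u ^ (κ : ℤ) = t * (σ z / z) := by rw [zpow_natCast]; exact hzt
    calc u = u ^ (4 * x + κ * x') := by rw [hxx, zpow_one]
      _ = (u ^ (4 : ℤ)) ^ x * (u ^ (κ : ℤ)) ^ x' := by
        rw [zpow_add₀ hu0, zpow_mul, zpow_mul]
      _ = ((J u / u) ^ (-2 : ℤ) * (σ w / w) ^ (-1 : ℤ)) ^ x * (t * (σ z / z)) ^ x' := by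
        rw [hu4, hzt']
      _ = ((J u / u) ^ (-2 * x) * (σ w / w) ^ (-x)) * (t ^ x' * (σ z / z) ^ x') := by
        rw [mul_zpow, mul_zpow, ← zpow_mul, ← zpow_mul, neg_one_mul]
      _ = _ := by
        rw [map_mul, map_zpow₀, map_zpow₀, mul_div_mul_comm, ← div_zpow, ← div_zpow]
        ring

end Pool.Agent.H12.RCN
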